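import Pool.Agent.Y265.HY.N5

/-!
# The excess of the fourth moment on hyperbolic surfaces (MP_a52643_an)

The hyperbolic plane is the half plane `im z > 0` with the metric `|dz|² / (im z)²`; an open subset
`Ω` of it is a chart of a hyperbolic surface. The area measure is `dx dy / (im z)²` and the
eigenvalue equation `-Δu = λu` reads `(im z)² (u_xx + u_yy) + λ u = 0`. `dx f z`, `dy f z` are the
partial derivatives `fderiv ℝ f z 1`, `fderiv ℝ f z I`, `lap f = dx (dx f) + dy (dy f)`, and
`TF Ω φ` says that `φ : ℂ → ℝ` is smooth with compact support contained in `Ω`.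

`D λ = (im z / √λ)(∂x - i ∂y)` is the frame derivative `λ^{-1/2} (e₁ - i e₂)` for the orthonormal
frame `e₁ = y ∂x`, `e₂ = y ∂y`. The functions `W k`, `k ∈ ℤ`, are the components of the local field:
`W 0 = u`, `W k = D^k u` for `k > 0` and `W (-k) = (-1)^k conj (W k)`. The hypothesis `hqe` is
quantum unique ergodicity in the unit cotangent bundle for the sequence: the measures
`∫ φ u D^k u dvol` converge to those of the Liouville measure, whose `k`-th Fourier mode along the
fibres is `0` for `k ≠ 0`. `G a b c d` is the fourth moment `E[W a W b W c W d]` of the isotropic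
Gaussian random wave.

The theorem bounds the deviation of every local fourth moment of the field from its Gaussian value
by the excess `∫ φ u⁴ dvol - 3 ∫ φ dvol` of the local fourth moment of `u` alone. There is no bound
on `L⁴` norms: the error is `o(1)` even along subsequences on which the fourth moments are
unbounded.

Proof idea. (1) Killing derivatives of `u` are again exact eigenfunctions; products of two exact
eigenfunctions define divergence free symmetric tensors, which are flat in the Klein model, and a
compensated compactness identity gives the limits of all null quartic expressions (no `L⁴` bound).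
(2) A radial energy estimate in disc coordinates gives `λ^{-1/2} |u|² → 0` locally uniformly, so
that all quartic error terms with a factor `λ^{-1/2}` vanish. (3) The null forms, the translation
relations and the symmetry of the moments determine them up to one unknown for each even total
order. (4) Averages of `W_{2k} W_{2j-2k}` over `k` have no Gaussian fluctuation; their correlations show
that the unknown defects form a positive definite sequence.
-/

set_option autoImplicit false
open MeasureTheory Filter Topology Complex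
open scoped ContDiff

namespace Pool.Agent.Results.MP_a52643_an.HyperbolicExcess

open Pool.Agent.W745.RW (TF dx dy lap)

/-- the normalised frame derivative `(y/√λ) (∂x - i ∂y)` of the hyperbolic plane -/
noncomputable def D (lam : ℝ) (f : ℂ → ℂ) (z : ℂ) : ℂ :=
  ((z.im / √lam : ℝ) : ℂ) * (dx f z - I * dy f z)

/-- `W k = D^k u` for `k ≥ 0` and `W k = (-1)^k conj (D^|k| u)` for `k < 0` -/
noncomputable def W (lam : ℝ) (u : ℂ → ℝ) : ℤ → ℂ → ℂ
  | Int.ofNat k => (D lam)^[k] (fun w => (u w : ℂ))
  | Int.negSucc k => fun z => (-1) ^ (k + 1) *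
      (starRingEnd ℂ) ((D lam)^[k + 1] (fun w => (u w : ℂ)) z)

/-- `∫ φ dvol` -/
noncomputable def mass (φ : ℂ → ℝ) : ℝ := ∫ z, φ z / z.im ^ 2

/-- the local fourth moment `∫ φ W_a W_b W_c W_d dvol` -/
noncomputable def M (lam : ℝ) (u : ℂ → ℝ) (φ : ℂ → ℝ) (a b c d : ℤ) : ℂ :=
  ∫ z, ((φ z / z.im ^ 2 : ℝ) : ℂ) * (W lam u a z * W lam u b z * W lam u c z * W lam u d z)

/-- the covariance `E[W a W b]` of the isotropic random wave -/
noncomputable def C (a b : ℤ) : ℂ := if a + b = 0 then (-1) ^ a.natAbs else 0

/-- the Gaussian fourth moment `E[W a W b W c W d]` -/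
noncomputable def G (a b c d : ℤ) : ℂ := C a b * C c d + C a c * C b d + C a d * C b c

/-- **Result.** Let `Ω` be an open subset of the upper half plane and let `u n` be real
eigenfunctions of the hyperbolic Laplacian on `Ω`, `y² Δu + λ_n u = 0`, `λ_n → ∞`, which are quantum
uniquely ergodic on the unit cotangent bundle over `Ω`. Let `φ ≥ 0` be a test function. Then for all
integers `a, b, c, d` and every `ε > 0`, for all large `n`,
`|∫ φ W_a W_b W_c W_d dvol - G(a,b,c,d) ∫ φ dvol| ≤ ∫ φ u⁴ dvol - 3 ∫ φ dvol + ε`. -/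
theorem result (Ω : Set ℂ) (hΩ : IsOpen Ω) (hU : ∀ z ∈ Ω, 0 < z.im) (lam : ℕ → ℝ)
    (hpos : ∀ n, 0 < lam n) (hlam : Tendsto lam atTop atTop) (u : ℕ → ℂ → ℝ)
    (hu : ∀ n, ContDiffOn ℝ ∞ (u n) Ω)
    (heq : ∀ n, ∀ z ∈ Ω, z.im ^ 2 * lap (u n) z + lam n * u n z = 0)
    (hqe : ∀ φ, TF Ω φ → ∀ k : ℕ, Tendsto (fun n => ∫ z, ((φ z / z.im ^ 2 : ℝ) : ℂ) *
      ((u n z : ℂ) * (D (lam n))^[k] (fun w => (u n w : ℂ)) z)) atTop
      (𝓝 (if k = 0 then (mass φ : ℂ) else 0)))
    (φ : ℂ → ℝ) (hφ : TF Ω φ) (hφ0 : ∀ z, 0 ≤ φ z) (a b c d : ℤ) (ε : ℝ) (hε : 0 < ε) :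
    ∀ᶠ n in atTop, ‖M (lam n) (u n) φ a b c d - G a b c d * mass φ‖ ≤
      (∫ z, φ z / z.im ^ 2 * u n z ^ 4) - 3 * mass φ + ε := by
  have hW : ∀ n k, Pool.Agent.Y265.HY.FW (lam n) (u n) k = W (lam n) (u n) k := by
    intro n k
    cases k with
    | ofNat k => rfl
    | negSucc k => rfl
  have hM : ∀ n φ a b c d, Pool.Agent.Y265.HY.FM (lam n) (u n) φ a b c d =
      M (lam n) (u n) φ a b c d := by
    intro n φ a b c d
    unfold Pool.Agent.Y265.HY.FM M
    simp only [hW]
  have key := Pool.Agent.Y265.HY.hyp_fourth hΩ hU hpos hlam hu heq hqe hφ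
  simp only [hM] at key
  exact key.2.2 hφ0 a b c d ε hε

end Pool.Agent.Results.MP_a52643_an.HyperbolicExcess
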