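import Pool.Agent.Y265.HY.Z

/-!
# Third moments of eigenfunctions on hyperbolic surfaces (MP_a52643_an)

The hyperbolic plane is the half plane `im z > 0` with the metric `|dz|² / (im z)²`; an open subset
`Ω` of it is a chart of a hyperbolic surface `X = Γ\𝔥`. The area measure is `dx dy / (im z)²` and the
eigenvalue equation `-Δu = λu` reads `(im z)² (u_xx + u_yy) + λ u = 0`. `dx f z`, `dy f z` are the
partial derivatives `fderiv ℝ f z 1`, `fderiv ℝ f z I`, `lap f = dx (dx f) + dy (dy f)`, and
`TF Ω φ` says that `φ : ℂ → ℝ` is smooth with compact support contained in `Ω`.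

`D λ = (im z / √λ)(∂x - i ∂y)` is the frame derivative `λ^{-1/2} (e₁ - i e₂)` for the orthonormal
frame `e₁ = y ∂x`, `e₂ = y ∂y`. The functions `W k`, `k ∈ ℤ`, are the components of the local field:
`W 0 = u`, `W k = D^k u` for `k > 0` and `W (-k) = (-1)^k conj (W k)`. The hypothesis `hqe` is quantum
unique ergodicity in the unit cotangent bundle for the sequence: the measures
`∫ φ u D^k u dvol` converge to those of the Liouville measure, whose `k`-th Fourier mode along the
fibres is `0` for `k ≠ 0`.

For the Gaussian random wave all third moments vanish. The theorem says that they vanish in the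
limit for every such sequence on a hyperbolic surface, with no bound on higher moments or on `L⁴`
norms.

Proof idea. The hyperbolic Killing fields map `u` to other exact eigenfunctions; products of two of
them define divergence free symmetric tensors, which become flat divergence free tensors in the
projective (Klein) model. A compensated compactness identity (potentials over quadrants) gives the
limits of all null quartic expressions without any `L⁴` bound. So the antisymmetric products
`W (a+2) W b - W a W (b+2)` are almost orthogonal in `L²`, and the ladder relations between the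
third moments express any of them as averages against sums of such products.
-/

set_option autoImplicit false
open MeasureTheory Filter Topology Complex
open scoped ContDiff

namespace Pool.Agent.Results.MP_a52643_an.HyperbolicThirdMoments

open Pool.Agent.W745.RW

/-- the normalised frame derivative `(y/√λ) (∂x - i ∂y)` of the hyperbolic plane -/
noncomputable def D (lam : ℝ) (f : ℂ → ℂ) (z : ℂ) : ℂ :=
  ((z.im / √lam : ℝ) : ℂ) * (dx f z - I * dy f z)

/-- `W k = D^k u` for `k ≥ 0` and `W k = (-1)^k conj (D^|k| u)` for `k < 0` -/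
noncomputable def W (lam : ℝ) (u : ℂ → ℝ) : ℤ → ℂ → ℂ
  | Int.ofNat k => (D lam)^[k] (fun w => (u w : ℂ))
  | Int.negSucc k => fun z => (-1) ^ (k + 1) *
      (starRingEnd ℂ) ((D lam)^[k + 1] (fun w => (u w : ℂ)) z)

/-- **Result.** Let `Ω` be an open subset of the upper half plane and let `u n` be real
eigenfunctions of the hyperbolic Laplacian on `Ω`, `y² Δu + λ_n u = 0`, `λ_n → ∞`, which are quantum
uniquely ergodic on the unit cotangent bundle over `Ω`. Then for all integers `i, j, k` and every
test function `φ`, `∫ φ W_i W_j W_k dvol → 0`. In particular (`i = j = k = 0`)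
`∫ φ u³ dvol → 0`. -/
theorem result (Ω : Set ℂ) (hΩ : IsOpen Ω) (hU : ∀ z ∈ Ω, 0 < z.im) (lam : ℕ → ℝ)
    (hpos : ∀ n, 0 < lam n) (hlam : Tendsto lam atTop atTop) (u : ℕ → ℂ → ℝ)
    (hu : ∀ n, ContDiffOn ℝ ∞ (u n) Ω)
    (heq : ∀ n, ∀ z ∈ Ω, z.im ^ 2 * lap (u n) z + lam n * u n z = 0)
    (hqe : ∀ φ, TF Ω φ → ∀ k : ℕ, Tendsto (fun n => ∫ z, ((φ z / z.im ^ 2 : ℝ) : ℂ) *
      ((u n z : ℂ) * (D (lam n))^[k] (fun w => (u n w : ℂ)) z)) atTop
      (𝓝 (if k = 0 then ((∫ z, φ z / z.im ^ 2 : ℝ) : ℂ) else 0)))
    (φ : ℂ → ℝ) (hφ : TF Ω φ) (i j k : ℤ) :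
    Tendsto (fun n => ∫ z, ((φ z / z.im ^ 2 : ℝ) : ℂ) * (W (lam n) (u n) i z *
      W (lam n) (u n) j z * W (lam n) (u n) k z)) atTop (𝓝 0) := by
  have hW : ∀ n k, W (lam n) (u n) k = Pool.Agent.Y265.HY.FW (lam n) (u n) k := by
    intro n k
    cases k with
    | ofNat k => rfl
    | negSucc k => rfl
  have key := Pool.Agent.Y265.HY.hyp_third hΩ hU hpos hlam hu heq hqe hφ i j k
  simp only [hW]
  exact key

end Pool.Agent.Results.MP_a52643_an.HyperbolicThirdMoments
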