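import Pool.Agent.Y139.PD.G

/-!
# Limit laws of eigenfunctions have positive density (MP_a52643_an)

`Ω ⊆ ℂ` is the domain of isothermal coordinates of a Riemannian surface with metric `ρ |dz|²`,
so `dvol = ρ dx dy` and `Δ_g = ρ⁻¹ (∂x² + ∂y²)`. The definitions `lapl`, `LocL2`, `Test` and
`IsLimitLaw` are those of the file `AbsoluteContinuity`.
-/

set_option autoImplicit false
open MeasureTheory Filter Topology Complex
open scoped ContDiff ENNReal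

namespace Pool.Agent.Results.MP_a52643_an.PositiveDensity

noncomputable section

open Pool.Agent.Results.MP_a52643_an.AbsoluteContinuity Pool.Agent.Y139.PD

/-- the mass `∫ φ dvol` of the set of points of `Ω` where `f` takes a value in `A` -/
def mass (Ω : Set ℂ) (φ ρ f : ℂ → ℝ) (A : Set ℝ) : ℝ :=
  ∫ z in {z | z ∈ Ω ∧ f z ∈ A}, φ z * ρ z

/-- the values beyond `b`, seen from zero: `t ≥ b` if `b > 0`, and `t ≤ b` if `b < 0` -/
def Beyond (b : ℝ) : Set ℝ := {t | b ∈ Set.uIcc 0 t}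

lemma Beyond_pos {b : ℝ} (hb : 0 < b) : Beyond b = Set.Ici b := by
  ext t
  show b ∈ Set.uIcc 0 t ↔ b ≤ t
  constructor
  · intro h
    rcases le_total 0 t with ht | ht
    · rw [Set.uIcc_of_le ht] at h; exact h.2
    · rw [Set.uIcc_of_ge ht] at h
      exact absurd h.2 (not_le.2 hb)
  · intro h
    rw [Set.uIcc_of_le (hb.le.trans h)]
    exact ⟨hb.le, h⟩

lemma Beyond_neg {b : ℝ} (hb : b < 0) : Beyond b = Set.Iic b := by
  ext t
  show b ∈ Set.uIcc 0 t ↔ t ≤ b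
  constructor
  · intro h
    rcases le_total 0 t with ht | ht
    · rw [Set.uIcc_of_le ht] at h
      exact absurd h.1 (not_le.2 hb)
    · rw [Set.uIcc_of_ge ht] at h; exact h.1
  · intro h
    rw [Set.uIcc_of_ge (h.trans hb.le)]
    exact ⟨h, hb.le⟩

lemma limit_neg {φ ρ : ℂ → ℝ} {u : ℕ → ℂ → ℝ} {ν : Measure ℝ} (h : IsLimitLaw φ ρ u ν) :
    IsLimitLaw φ ρ (fun n z => -u n z) (refl ν) := by
  obtain ⟨σ, hσ, hg⟩ := h
  refine ⟨σ, hσ, fun g cg sg => ?_⟩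
  have h1 := hg (fun t => g (-t)) (cg.comp continuous_neg) (sg.comp_homeomorph (Homeomorph.neg ℝ))
  have e : ∫ x, g x ∂(refl ν) = ∫ x, g (-x) ∂ν :=
    integral_map_equiv (MeasurableEquiv.neg ℝ) g
  rw [e]
  exact h1

/-- **Limit laws of eigenfunctions have positive density.** -/
theorem result : ∃ C : ℝ, ∀ (Ω : Set ℂ) (ρ : ℂ → ℝ) (lam : ℕ → ℝ) (u : ℕ → ℂ → ℝ), IsOpen Ω →
    ContDiffOn ℝ ∞ ρ Ω → (∀ z ∈ Ω, 0 < ρ z) → Tendsto lam atTop atTop →
    (∀ n, ContDiffOn ℝ ∞ (u n) Ω) → (∀ n, ∀ z ∈ Ω, lapl (u n) z + lam n * (ρ z * u n z) = 0) →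
    LocL2 Ω u → ∀ φ : ℂ → ℝ, Test Ω φ → ∀ m : ℝ, 0 < m →
    (∀ᶠ n in atTop, ∫ z, φ z * (ρ z * u n z ^ 2) ≤ m) →
      (∀ ε : ℝ, 0 < ε → ∀ᶠ n in atTop, ∀ (b : ℝ) (A : Set ℝ), MeasurableSet A →
        A ⊆ Set.uIoo 0 b → ε ≤ |b| * mass Ω φ ρ (u n) (Beyond b) →
        (volume A).toReal * (|b| * mass Ω φ ρ (u n) (Beyond b)) ^ 3 ≤
          C * m ^ 2 * mass Ω φ ρ (u n) A) ∧
      ∀ ν : Measure ℝ, IsFiniteMeasure ν → IsLimitLaw φ ρ u ν →
        (Integrable (fun x => x) ν ∧ ∫ x, x ∂ν = 0) ∧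
        (∀ (b : ℝ) (A : Set ℝ), A ⊆ Set.uIoo 0 b →
          (volume A).toReal * (|b| * (ν (Beyond b)).toReal) ^ 3 ≤ C * m ^ 2 * (ν A).toReal) ∧
        (ν {0}ᶜ = 0 ∨ ∃ J : Set ℝ, IsOpen J ∧ J.OrdConnected ∧ (0 : ℝ) ∈ J ∧
          ν.restrict {0}ᶜ ≪ volume.restrict J ∧ volume.restrict J ≪ ν.restrict {0}ᶜ) := by
  obtain ⟨k, C, C0, sk, k4, k2, k1, k3⟩ := exists_cut
  refine ⟨1024 * C ^ 2, ?_⟩
  intro Ω ρ lam u hΩ hρ hρ0 hlam hu he hL φ hφ m m0 hm
  have H : Hyp Ω ρ lam u := ⟨hΩ, hρ, hρ0, hlam, hu, he, hL⟩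
  have H' := H.neg
  have hm' : ∀ᶠ n in atTop, ∫ z, φ z * (ρ z * (fun n z => -u n z) n z ^ 2) ≤ m :=
    hm.mono fun n hn => by simpa only [neg_sq] using hn
  have uo : ∀ {b : ℝ}, 0 < b → Set.uIoo 0 b = Set.Ioo 0 b := fun hb => Set.uIoo_of_lt hb
  have un : ∀ {b : ℝ}, b < 0 → Set.uIoo 0 b = Set.Ioo b 0 := fun hb => Set.uIoo_of_gt hb
  refine ⟨fun ε ε0 => ?_, fun ν hν hlim => ?_⟩
  · filter_upwards [halfA H hφ m0 hm C0 sk k4 k2 k1 k3 ε0,
      halfA H' hφ m0 hm' C0 sk k4 k2 k1 k3 ε0] with n p1 p2 b A mA hA hb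
    rcases lt_trichotomy b 0 with h | h | h
    · rw [Beyond_neg h, abs_of_neg h] at hb ⊢
      rw [un h] at hA
      have e1 : law Ω φ ρ (fun z => -u n z) (Set.Ici (-b)) = mass Ω φ ρ (u n) (Set.Iic b) := by
        unfold law mass
        have : {z | z ∈ Ω ∧ -u n z ∈ Set.Ici (-b)} = {z | z ∈ Ω ∧ u n z ∈ Set.Iic b} := by
          ext z
          show (z ∈ Ω ∧ -b ≤ -u n z) ↔ (z ∈ Ω ∧ u n z ≤ b)
          rw [neg_le_neg_iff]
        rw [this]
      have e2 : law Ω φ ρ (fun z => -u n z) {t | -t ∈ A} = mass Ω φ ρ (u n) A := by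
        unfold law mass
        have : {z | z ∈ Ω ∧ -u n z ∈ {t | -t ∈ A}} = {z | z ∈ Ω ∧ u n z ∈ A} := by
          ext z
          show (z ∈ Ω ∧ - -u n z ∈ A) ↔ (z ∈ Ω ∧ u n z ∈ A)
          rw [neg_neg]
        rw [this]
      have q := p2 (-b) (by linarith) (by rw [e1]; exact hb) {t | -t ∈ A} (measurable_neg mA)
        (fun t ht => by
          have := hA ht
          exact ⟨by linarith [this.2], by linarith [this.1]⟩)
      rw [e1, e2, vol_neg] at q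
      exact q
    · rw [h, abs_zero, zero_mul] at hb
      linarith
    · rw [Beyond_pos h, abs_of_pos h] at hb ⊢
      rw [uo h] at hA
      exact p1 b h hb A mA hA
  · have hν' : IsFiniteMeasure (refl ν) := inferInstance
    have posi := fun (b : ℝ) (b0 : 0 < b) (A : Set ℝ) (hA : A ⊆ Set.Ioo 0 b) =>
      halfB H hφ m0 hm C0 sk k4 k2 k1 k3 ν hlim b0 A hA
    have nega := fun (b : ℝ) (b0 : 0 < b) (A : Set ℝ) (hA : A ⊆ Set.Ioo 0 b) =>
      halfB H' hφ m0 hm' C0 sk k4 k2 k1 k3 (refl ν) (limit_neg hlim) b0 A hA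
    obtain ⟨i1, i0⟩ := mean H hφ m0 hm ν hlim
    obtain ⟨C2, hC2⟩ := Pool.Agent.Results.MP_a52643_an.AbsoluteContinuity.result Ω ρ lam u hΩ hρ
      hρ0 hlam hu he hL φ hφ
    have ac := (hC2 ν hν hlim).2
    refine ⟨⟨i1, i0⟩, fun b A hA => ?_, shape ac i1 i0 posi nega⟩
    rcases lt_trichotomy b 0 with h | h | h
    · rw [Beyond_neg h, abs_of_neg h]
      rw [un h] at hA
      have q := nega (-b) (by linarith) {t | -t ∈ A} (fun t ht => by
          have := hA ht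
          exact ⟨by linarith [this.2], by linarith [this.1]⟩)
      rw [refl_Ici, neg_neg, vol_neg, refl_ap] at q
      have e2 : {t : ℝ | -t ∈ {t | -t ∈ A}} = A := by
        ext t
        show - -t ∈ A ↔ t ∈ A
        rw [neg_neg]
      rw [e2] at q
      exact q
    · rw [h, abs_zero, zero_mul]
      have : 0 ≤ 1024 * C ^ 2 * m ^ 2 * (ν A).toReal := by positivity
      simpa using this
    · rw [Beyond_pos h, abs_of_pos h]
      rw [uo h] at hA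
      exact posi b h A hA

end

end Pool.Agent.Results.MP_a52643_an.PositiveDensity
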